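import Pool.Agent.N783.PQ.Loc

set_option autoImplicit false
set_option linter.all false

/-!
# PQ/MAIN: a positive proportion, from the parts (helper400)

Adapted from `Pool/Agent/N415/PJ/MAIN.lean` of helper415 (after helper874).
-/

open Polynomial
open scoped Classical

namespace Pool.Agent.N400.PQ

open Pool.Agent.N783.PQ
open Pool.Agent.N352.PJ (dd)

/-- Counting with fibres of size at most `2 ^ r` (helper874). -/
theorem card_fib {α β γ : Type} [DecidableEq γ] {G : Set α} {H : Set β} (hG : G.Finite)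
    (hH : H.Finite) (S : Finset γ) (f : Finset γ → α → β)
    (hex : ∀ x ∈ G, ∃ J ⊆ S, f J x ∈ H) (hinj : ∀ J ⊆ S, ∀ x ∈ G, ∀ y ∈ G, f J x = f J y → x = y) :
    G.ncard ≤ 2 ^ S.card * H.ncard := by
  choose! J hJ hf using hex
  have hT : ((fun x => (J x, f (J x) x)) '' G) ⊆
      ((S.powerset : Set (Finset γ)) ×ˢ H) := by
    rintro _ ⟨x, hx, rfl⟩
    refine ⟨?_, hf x hx⟩
    rw [Finset.mem_coe, Finset.mem_powerset]
    exact hJ x hx
  have hi : Set.InjOn (fun x => (J x, f (J x) x)) G := by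
    intro x hx y hy h
    simp only [Prod.mk.injEq] at h
    refine hinj (J x) (hJ x hx) x hx y hy ?_
    rw [h.2, h.1]
  rw [← Set.ncard_image_of_injOn hi]
  refine (Set.ncard_le_ncard hT ((Finset.finite_toSet _).prod hH)).trans ?_
  rw [Set.ncard_prod, Set.ncard_coe_finset, Finset.card_powerset]

/-- the exponent -/
lemma sum_dd (g : ℕ) : ∑ j : Fin (2 * g), (2 * g + 1 - (j : ℕ)) = dd g := by
  have h1 : ∀ n : ℕ, 2 * ∑ j ∈ Finset.range n, (n + 1 - j) = n * (n + 3) := by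
    intro n
    induction n with
    | zero => rfl
    | succ n ih =>
      rw [Finset.sum_range_succ']
      have h2 : ∀ j ∈ Finset.range n, n + 1 + 1 - (j + 1) = n + 1 - j := fun j _ => by omega
      rw [Finset.sum_congr rfl h2, mul_add, ih]
      rw [Nat.sub_zero]
      ring
  have h2 := h1 (2 * g)
  rw [Finset.sum_range] at h2
  unfold dd
  have h3 : 2 * ∑ j : Fin (2 * g), (2 * g + 1 - (j : ℕ)) = 2 * (2 * g ^ 2 + 3 * g) := by
    rw [h2]; ring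
  omega

/-- the number of the polynomials of bounded height -/
theorem ht_card (g B : ℕ) (hB : 1 ≤ B) : {f : ℤ[X] | Ht g B f}.Finite ∧
    {f : ℤ[X] | Ht g B f}.ncard ≤ 3 ^ (2 * g) * B ^ dd g := by
  set T : Finset (Fin (2 * g) → ℤ) := Fintype.piFinset fun j : Fin (2 * g) =>
    Finset.Icc (-((B : ℤ) ^ (2 * g + 1 - (j : ℕ)))) ((B : ℤ) ^ (2 * g + 1 - (j : ℕ))) with hT
  let Φ : ℤ[X] → (Fin (2 * g) → ℤ) := fun f j => f.coeff j
  have hmaps : ∀ f ∈ {f : ℤ[X] | Ht g B f}, Φ f ∈ (T : Set (Fin (2 * g) → ℤ)) := by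
    intro f hf
    rw [Finset.mem_coe, hT, Fintype.mem_piFinset]
    intro j
    rw [Finset.mem_Icc]
    exact abs_le.1 (hf.ht j (by have := j.2; omega))
  have hinj : Set.InjOn Φ {f : ℤ[X] | Ht g B f} := by
    intro f hf f' hf' h
    ext j
    rcases Nat.lt_or_ge j (2 * g) with hj | hj
    · exact congrFun h ⟨j, hj⟩
    rcases Nat.eq_or_lt_of_le hj with hj | hj
    · rw [← hj, hf.tr, hf'.tr]
    rcases Nat.eq_or_lt_of_le (Nat.succ_le_of_lt hj) with hj | hj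
    · have e1 : f.coeff j = 1 := by
        rw [← hj, Nat.succ_eq_add_one, ← hf.deg]; exact hf.mon
      have e2 : f'.coeff j = 1 := by
        rw [← hj, Nat.succ_eq_add_one, ← hf'.deg]; exact hf'.mon
      rw [e1, e2]
    · rw [coeff_eq_zero_of_natDegree_lt (by rw [hf.deg]; exact hj),
        coeff_eq_zero_of_natDegree_lt (by rw [hf'.deg]; exact hj)]
  refine ⟨Set.Finite.of_injOn hmaps hinj (Finset.finite_toSet T), ?_⟩
  refine (Set.ncard_le_ncard_of_injOn Φ hmaps hinj (Finset.finite_toSet T)).trans ?_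
  rw [Set.ncard_coe_finset, hT, Fintype.card_piFinset]
  have h1 : ∀ j : Fin (2 * g), (Finset.Icc (-((B : ℤ) ^ (2 * g + 1 - (j : ℕ))))
      ((B : ℤ) ^ (2 * g + 1 - (j : ℕ)))).card ≤ 3 * B ^ (2 * g + 1 - (j : ℕ)) := by
    intro j
    rw [Int.card_Icc]
    have h2 : 1 ≤ B ^ (2 * g + 1 - (j : ℕ)) := Nat.one_le_pow _ _ hB
    have h3 : ((B : ℤ) ^ (2 * g + 1 - (j : ℕ))) = ((B ^ (2 * g + 1 - (j : ℕ)) : ℕ) : ℤ) := by
      push_cast
      rfl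
    rw [h3]
    omega
  calc ∏ j : Fin (2 * g), (Finset.Icc (-((B : ℤ) ^ (2 * g + 1 - (j : ℕ))))
      ((B : ℤ) ^ (2 * g + 1 - (j : ℕ)))).card
      ≤ ∏ j : Fin (2 * g), 3 * B ^ (2 * g + 1 - (j : ℕ)) :=
        Finset.prod_le_prod' fun j _ => h1 j
    _ = 3 ^ (2 * g) * B ^ dd g := by
      rw [Finset.prod_mul_distrib, Finset.prod_const, Finset.card_univ, Fintype.card_fin,
        Finset.prod_pow_eq_pow_sum, sum_dd]

/-- twisting and the height -/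
theorem ht_scale {g B B₁ D : ℕ} {f : ℤ[X]} (hf : Ht g B₁ f) (hM : B₁ * D ≤ B) :
    Ht g B (f.scaleRoots (D : ℤ)) where
  mon := by
    rw [monic_scaleRoots_iff]; exact hf.mon
  deg := by rw [natDegree_scaleRoots, hf.deg]
  tr := by rw [coeff_scaleRoots, hf.tr, zero_mul]
  ht := by
    intro j hj
    rw [coeff_scaleRoots, hf.deg, abs_mul, abs_pow, Nat.abs_cast]
    calc |f.coeff j| * (D : ℤ) ^ (2 * g + 1 - j)
        ≤ (B₁ : ℤ) ^ (2 * g + 1 - j) * (D : ℤ) ^ (2 * g + 1 - j) :=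
          mul_le_mul_of_nonneg_right (hf.ht j hj) (by positivity)
      _ = ((B₁ * D : ℕ) : ℤ) ^ (2 * g + 1 - j) := by
          rw [← mul_pow]
          push_cast
          rfl
      _ ≤ (B : ℤ) ^ (2 * g + 1 - j) := by
          exact pow_le_pow_left₀ (by positivity) (by exact_mod_cast hM) _

theorem scale_inj {f f' : ℤ[X]} {D : ℤ} (hD : D ≠ 0) (hd : f.natDegree = f'.natDegree)
    (h : f.scaleRoots D = f'.scaleRoots D) : f = f' := by
  ext j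
  have h1 := congrArg (fun p : ℤ[X] => p.coeff j) h
  simp only [coeff_scaleRoots, hd] at h1
  exact mul_right_cancel₀ (pow_ne_zero _ hD) h1

/-- Many polynomials of the family are not bad. -/
theorem good_card {g κ C m : ℕ} {c : ℝ} (hc : 0 < c) {W : ℕ} {f₁ : ℤ[X]} {S : Finset ℕ}
    {h : ℕ → ℤ[X]} {P : ℝ} (hP0 : 0 < P) (B N : ℕ)
    (hFc : c * (B : ℝ) ^ dd g ≤ P * ({f : ℤ[X] | Fam g B W f₁ S h f}.ncard : ℝ))
    (hfin : {f : ℤ[X] | LBad g N κ S h f}.Finite)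
    (hB : (2 : ℝ) ^ m * P * {f : ℤ[X] | LBad g N κ S h f}.ncard ≤ C * 2 ^ (2 * N * dd g))
    (hm : 2 * (C * (4 * 2 ^ κ : ℝ) ^ dd g) / c < 2 ^ m)
    (hN : (4 : ℝ) ^ N ≤ 4 * (2 ^ κ * B)) :
    c / 2 * (B : ℝ) ^ dd g ≤
      P * ({f : ℤ[X] | Fam g B W f₁ S h f ∧ ¬ LBad g N κ S h f}.ncard : ℝ) := by
  have hd := Set.le_ncard_diff {f : ℤ[X] | LBad g N κ S h f} {f : ℤ[X] | Fam g B W f₁ S h f} hfin
  have e : {f : ℤ[X] | Fam g B W f₁ S h f} \ {f : ℤ[X] | LBad g N κ S h f} =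
      {f : ℤ[X] | Fam g B W f₁ S h f ∧ ¬ LBad g N κ S h f} := rfl
  rw [e] at hd
  set F : ℕ := {f : ℤ[X] | Fam g B W f₁ S h f}.ncard
  set Bd : ℕ := {f : ℤ[X] | LBad g N κ S h f}.ncard
  set G : ℕ := {f : ℤ[X] | Fam g B W f₁ S h f ∧ ¬ LBad g N κ S h f}.ncard
  have hd' : (F : ℝ) ≤ Bd + G := by
    have : F ≤ Bd + G := by omega
    exact_mod_cast this
  rw [div_lt_iff₀ hc] at hm
  have h4 : (2 : ℝ) ^ (2 * N * dd g) ≤ (4 * 2 ^ κ : ℝ) ^ dd g * (B : ℝ) ^ dd g := by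
    have e1 : (2 : ℝ) ^ (2 * N * dd g) = ((4 : ℝ) ^ N) ^ dd g := by
      rw [pow_mul, pow_mul]
      norm_num
    rw [e1, ← mul_pow]
    exact pow_le_pow_left₀ (by positivity) (by linarith) _
  have hPB : P * (Bd : ℝ) ≤ c / 2 * (B : ℝ) ^ dd g := by
    have h2r : (0 : ℝ) < 2 ^ m := by positivity
    rw [← mul_le_mul_iff_right₀ h2r]
    calc 2 ^ m * (P * (Bd : ℝ)) = 2 ^ m * P * Bd := by ring
      _ ≤ C * 2 ^ (2 * N * dd g) := hB
      _ ≤ C * ((4 * 2 ^ κ : ℝ) ^ dd g * (B : ℝ) ^ dd g) := by gcongr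
      _ = (2 * (C * (4 * 2 ^ κ : ℝ) ^ dd g)) * ((B : ℝ) ^ dd g / 2) := by ring
      _ ≤ (2 ^ m * c) * ((B : ℝ) ^ dd g / 2) := by gcongr
      _ = 2 ^ m * (c / 2 * (B : ℝ) ^ dd g) := by ring
  have : P * (F : ℝ) ≤ P * Bd + P * G := by
    rw [← mul_add]
    exact mul_le_mul_of_nonneg_left hd' hP0.le
  linarith

/-- PQ-MAIN -/
theorem main (h1 : S_FAM) (h2 : S_BAD) (h3 : S_EXS) (h4 : S_TW) : S_MAIN := by
  intro g hg
  obtain ⟨W, f₁, hf₁, c, hc, hfam⟩ := h1 g hg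
  obtain ⟨κ, htw⟩ := h4 g hg
  obtain ⟨C, hbad⟩ := h2 g κ hg
  obtain ⟨m, hm⟩ : ∃ m : ℕ, 2 * (C * (4 * 2 ^ κ : ℝ) ^ dd g) / c < 2 ^ m :=
    pow_unbounded_of_one_lt _ (by norm_num)
  obtain ⟨S, h, hS, hcard⟩ := h3 g W hg m
  obtain ⟨B₁₀, hB₁₀⟩ := hfam S h hS
  obtain ⟨N₀, hN₀⟩ := hbad W S h hS
  set Q : ℕ := ∏ q ∈ S, q with hQ
  have hq1 : ∀ q ∈ S, 1 ≤ q := fun q hq => (hS q hq).1.pos
  have hQ1 : 1 ≤ Q := Finset.one_le_prod' hq1
  set P : ℕ := ∏ q ∈ S, q ^ (2 * g) with hP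
  have hP0 : (0 : ℝ) < P := by
    have : 0 < P := Finset.prod_pos fun q hq => pow_pos (hq1 q hq) _
    exact_mod_cast this
  have hQ0 : (0 : ℝ) < Q := by exact_mod_cast hQ1
  set X₀ : ℕ := max (max B₁₀ (4 ^ N₀)) 1 with hX₀
  refine ⟨c / 2 / (P * 2 ^ m * (3 ^ (2 * g) * (2 * Q) ^ dd g)), by positivity, X₀ * Q,
    fun B hB => ?_⟩
  set B₁ : ℕ := B / Q with hB₁
  have hBX : X₀ ≤ B₁ := (Nat.le_div_iff_mul_le hQ1).2 hB
  have hb1 : 1 ≤ B₁ := (le_max_right _ _).trans hBX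
  have hb2 : B₁₀ ≤ B₁ := ((le_max_left _ _).trans (le_max_left _ _)).trans hBX
  have hb3 : 4 ^ N₀ ≤ B₁ := ((le_max_right _ _).trans (le_max_left _ _)).trans hBX
  have hBQ : B₁ * Q ≤ B := Nat.div_mul_le_self B Q
  have hBQ2 : B ≤ 2 * Q * B₁ := by
    have e1 : B < B₁ * Q + Q := by
      have := Nat.lt_div_mul_add (a := B) (b := Q) hQ1
      exact this
    nlinarith
  have hB1 : 1 ≤ B := le_trans (by nlinarith) hBQ
  obtain ⟨N, hNa, hNb⟩ : ∃ N : ℕ, 2 ^ κ * B₁ ≤ 4 ^ N ∧ 4 ^ N ≤ 4 * (2 ^ κ * B₁) := by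
    refine ⟨Nat.log 4 (2 ^ κ * B₁) + 1, (Nat.lt_pow_succ_log_self (by norm_num) _).le, ?_⟩
    rw [pow_succ, mul_comm]
    refine Nat.mul_le_mul_left 4 (Nat.pow_log_le_self 4 ?_)
    positivity
  have hNN : N₀ ≤ N := by
    have e1 : 4 ^ N₀ ≤ 4 ^ N := hb3.trans (le_trans (Nat.le_mul_of_pos_left _ (by positivity)) hNa)
    exact (Nat.pow_le_pow_iff_right (by norm_num)).1 e1
  obtain ⟨hfin, hBd⟩ := hN₀ N hNN
  refine ⟨(ht_card g B hB1).1, ?_⟩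
  set H := {f : ℤ[X] | Ht g B f ∧ Irreducible (ov ℚ f) ∧ SelZero f} with hH
  set G := {f : ℤ[X] | Fam g B₁ W f₁ S h f ∧ ¬ LBad g N κ S h f} with hGdef
  have hHf : H.Finite := (ht_card g B hB1).1.subset fun f hf => hf.1
  have hGf : G.Finite := (ht_card g B₁ hb1).1.subset fun f hf => hf.1.ht
  have hG : c / 2 * (B₁ : ℝ) ^ dd g ≤ P * (G.ncard : ℝ) := by
    refine good_card (C := C) (m := m) hc hP0 B₁ N (hB₁₀ B₁ hb2) hfin ?_ hm ?_
    · rw [hcard] at hBd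
      exact_mod_cast hBd
    · exact_mod_cast hNb
  have hJ0 : ∀ J ⊆ S, ((∏ q ∈ J, q : ℕ) : ℤ) ≠ 0 := by
    intro J hJ
    have : 0 < ∏ q ∈ J, q := Finset.prod_pos fun q hq => hq1 q (hJ hq)
    exact_mod_cast this.ne'
  have hcard1 := card_fib hGf hHf S (fun J f => f.scaleRoots ((∏ q ∈ J, q : ℕ) : ℤ)) (by
      intro f hf
      obtain ⟨J, hJ, hirr, hsel⟩ := htw B₁ N W f₁ S h f hf₁ hS hf.1 hNa hb1 hf.2
      have hDle : ∏ q ∈ J, q ≤ Q :=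
        Finset.prod_le_prod_of_subset_of_one_le' hJ fun q hq _ => hq1 q hq
      exact ⟨J, hJ, ht_scale hf.1.ht ((Nat.mul_le_mul_left _ hDle).trans hBQ), hirr, hsel⟩) (by
      intro J hJ x hx y hy hxy
      exact scale_inj (hJ0 J hJ) (by rw [hx.1.ht.deg, hy.1.ht.deg]) hxy)
  rw [hcard] at hcard1
  have hcard' : (G.ncard : ℝ) ≤ 2 ^ m * H.ncard := by exact_mod_cast hcard1
  have hM' : ({f : ℤ[X] | Ht g B f}.ncard : ℝ) ≤
      3 ^ (2 * g) * (2 * Q) ^ dd g * (B₁ : ℝ) ^ dd g := by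
    have e1 : ({f : ℤ[X] | Ht g B f}.ncard : ℝ) ≤ 3 ^ (2 * g) * (B : ℝ) ^ dd g := by
      exact_mod_cast (ht_card g B hB1).2
    refine e1.trans ?_
    rw [mul_assoc, ← mul_pow]
    have e2 : (B : ℝ) ≤ 2 * Q * B₁ := by exact_mod_cast hBQ2
    gcongr
  calc c / 2 / (P * 2 ^ m * (3 ^ (2 * g) * (2 * Q) ^ dd g)) *
        ({f : ℤ[X] | Ht g B f}.ncard : ℝ)
      ≤ c / 2 / (P * 2 ^ m * (3 ^ (2 * g) * (2 * Q) ^ dd g)) *
        (3 ^ (2 * g) * (2 * Q) ^ dd g * (B₁ : ℝ) ^ dd g) :=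
        mul_le_mul_of_nonneg_left hM' (by positivity)
    _ = c / 2 * (B₁ : ℝ) ^ dd g / (P * 2 ^ m) := by
        field_simp
    _ ≤ (P * (G.ncard : ℝ)) / (P * 2 ^ m) := by gcongr
    _ ≤ (P * (2 ^ m * H.ncard)) / (P * 2 ^ m) := by gcongr
    _ = H.ncard := by field_simp

end Pool.Agent.N400.PQ
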